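import Mathlib
import Pool.Agent.H.MP_aa4be7_al.Defs
import Pool.Agent.H.MP_aa4be7_al.Main

set_option autoImplicit false

namespace Pool.Agent.Results.MP_aa4be7_al.Q1

open Pool.Agent.H.MP_aa4be7_al

theorem result : IsNoetherianRing ℝ ∧ ringKrullDim ℝ = 0 ∧
    ∃ A : Subalgebra ℝ (AddMonoidAlgebra ℝ (Fin 5 → ℤ)), IsGradedSub A ∧
      ∃ a : Fin 3 → A, Unimodular a ∧ ¬ FirstRow a := by
  obtain ⟨a, h1, h2⟩ := main
  exact ⟨inferInstance, ringKrullDim_eq_zero_of_field ℝ, A, graded, a, h1, fun ⟨g, hg⟩ => h2 g hg⟩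

end Pool.Agent.Results.MP_aa4be7_al.Q1
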